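import Mathlib

/-!
# MP_0f21ab_al (Bertram's question): the number of conjugacy classes of a finite supersolvable group

Definitions and the statements (as `Prop`s) of the independent packets.
-/

set_option autoImplicit false

namespace Helper46.KG

universe u

open scoped commutatorElement

/-- A group is supersolvable if it has a finite chain `⊥ = H 0, H 1, …, H n = ⊤` of normal
subgroups such that `H (i+1)` is generated by `H i` and one element. -/
def IsSupersolvable (G : Type u) [Group G] : Prop :=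
  ∃ (n : ℕ) (H : ℕ → Subgroup G), H 0 = ⊥ ∧ H n = ⊤ ∧ (∀ i, (H i).Normal) ∧
    ∀ i, i < n → ∃ g : G, H (i + 1) = H i ⊔ Subgroup.zpowers g

/-- The number of conjugacy classes. -/
noncomputable def k (G : Type u) [Group G] : ℕ := Nat.card (ConjClasses G)

/-! ### Packet S: facts on supersolvable groups -/

/-- S1: quotients of supersolvable groups are supersolvable. -/
def StS1 : Prop := ∀ (G : Type u) [Group G] (N : Subgroup G) [N.Normal],
  IsSupersolvable G → IsSupersolvable (G ⧸ N)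

/-- S2: a nontrivial normal subgroup of a finite supersolvable group contains a normal subgroup of
the group of prime order. -/
def StS2 : Prop := ∀ (G : Type u) [Group G] [Finite G] (N : Subgroup G) [N.Normal],
  IsSupersolvable G → N ≠ ⊥ → ∃ Z : Subgroup G, Z ≤ N ∧ Z.Normal ∧ (Nat.card Z).Prime

/-- S3: the derived subgroup of a supersolvable group is nilpotent. -/
def StS3 : Prop := ∀ (G : Type u) [Group G],
  IsSupersolvable G → Group.IsNilpotent (commutator G)

/-! ### Packet F: fibre products -/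

/-- F: `k(G/P) + k(G/R) ≤ k(G) + k(G/PR)`. -/
def StF : Prop := ∀ (G : Type u) [Group G] [Finite G] (P R : Subgroup G) [P.Normal] [R.Normal],
  k (G ⧸ P) + k (G ⧸ R) ≤ k G + k (G ⧸ (P ⊔ R))

/-! ### Packet A: abelian normal subgroup with abelian quotient -/

/-- A: `N` abelian normal, `G/N` abelian of order `m`: `m² + |N| ≤ m k(G) + 1`. -/
def StA : Prop := ∀ (G : Type u) [Group G] [Finite G] (N : Subgroup G) [N.Normal],
  commutator G ≤ N → (∀ x ∈ N, ∀ y ∈ N, x * y = y * x) →
  N.index ^ 2 + Nat.card N ≤ N.index * k G + 1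

/-- A2 (numbers). -/
def StA2 : Prop := ∀ m n k : ℕ, 1 ≤ m → 1 ≤ n → m ^ 2 + n ≤ m * k + 1 → n * m < 2 ^ k

/-! ### Packet N: splitting off a non-abelian Sylow subgroup of a nilpotent normal subgroup -/

/-- N: if `N` is a finite nilpotent normal subgroup which is not abelian then `N = P ⊔ R` with
`P, R` normal in `G`, `P` a `p`-group of order `p^a`, `a ≥ 2`, and `R` of order prime to `p`. -/
def StN : Prop := ∀ (G : Type u) [Group G] [Finite G] (N : Subgroup G) [N.Normal],
  Group.IsNilpotent N → ¬ (∀ x ∈ N, ∀ y ∈ N, x * y = y * x) →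
  ∃ (p a : ℕ) (P R : Subgroup G), p.Prime ∧ P.Normal ∧ R.Normal ∧ P ⊔ R = N ∧ P ⊓ R = ⊥ ∧
    2 ≤ a ∧ Nat.card P = p ^ a ∧ (Nat.card R).Coprime p

/-! ### Packet E: groups of central type -/

/-- E: if `Z` is a central subgroup of order `p` of a group of order `p^(2r)` then some `x ∉ Z`
has the property that every commutator `⁅x, y⁆` lying in `Z` is trivial. -/
def StE : Prop := ∀ (Q : Type u) [Group Q] [Finite Q] (p r : ℕ) (Z : Subgroup Q), p.Prime →
  Z ≤ Subgroup.center Q → Nat.card Z = p → Nat.card Q = p ^ (2 * r) →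
  ∃ x : Q, x ∉ Z ∧ ∀ y : Q, ⁅x, y⁆ ∈ Z → ⁅x, y⁆ = 1

/-! ### Packets G1, G2: one stage -/

/-- The fibre of `ConjClasses G → ConjClasses (G/Z)`. -/
def fib {G : Type u} [Group G] (Z : Subgroup G) [Z.Normal] (c : ConjClasses (G ⧸ Z)) :
    Set (ConjClasses G) :=
  {C | ConjClasses.map (QuotientGroup.mk' Z) C = c}

/-- G1: `Q` normal Sylow `p`-subgroup of `G`, `G/Q` abelian, `Z` normal of order `p`. There is a set
`B` of classes of `G/Z`, containing the trivial class and no other class contained in `Q/Z`, with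
`|G:Q| ≤ (p-1) |B|`, such that over every class in `B` there are at least two classes of `G`. -/
def StG1 : Prop := ∀ (G : Type u) [Group G] [Finite G] (p : ℕ) (Q Z : Subgroup G) [Z.Normal],
  p.Prime → IsPGroup p Q → ¬ p ∣ Q.index → commutator G ≤ Q → Nat.card Z = p →
  ∃ B : Set (ConjClasses (G ⧸ Z)), Q.index ≤ (p - 1) * B.ncard ∧
    (∀ c ∈ B, 2 ≤ (fib Z c).ncard) ∧
    (∀ x : G, x ∈ Q → ConjClasses.mk (x : G ⧸ Z) ∈ B → x ∈ Z)

/-- G2: the same situation, and `x ∈ Q \ Z` such that every commutator `⁅x, y⁆`, `y ∈ Q`, lying in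
`Z` is trivial. Then the classes of `G/Z` contained in `Q/Z` and different from the trivial class
contribute at least `(p-1)²/|G:Q|` to `k(G) - k(G/Z)`. -/
def StG2 : Prop := ∀ (G : Type u) [Group G] [Finite G] (p : ℕ) (Q Z : Subgroup G) [Z.Normal],
  p.Prime → IsPGroup p Q → ¬ p ∣ Q.index → commutator G ≤ Q → Nat.card Z = p →
  ∀ x : G, x ∈ Q → x ∉ Z → (∀ y ∈ Q, ⁅x, y⁆ ∈ Z → ⁅x, y⁆ = 1) →
  ∃ T : Set (ConjClasses (G ⧸ Z)),
    (∀ c ∈ T, ∃ t : G, t ∈ Q ∧ t ∉ Z ∧ c = ConjClasses.mk (t : G ⧸ Z)) ∧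
    (p - 1) ^ 2 ≤ Q.index * ({C | ConjClasses.map (QuotientGroup.mk' Z) C ∈ T}.ncard - T.ncard)

/-! ### Packet H: the numerical inequality -/

def StH : Prop := ∀ p a u c : ℕ, 1 ≤ u → 1 ≤ c → p ≤ u * c + 1 → 2 ≤ a →
  p ^ a ≤ 2 ^ (a * u + (a / 2) * c)

end Helper46.KG
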