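import Pool.Agent.Helper46.KG.Mixed
import Pool.Agent.Helper11.KG.G1
import Pool.Agent.Helper11.KG.SE
import Pool.Agent.Helper11.KG.N2T
import Pool.Agent.Helper36.KG.E
import Pool.Agent.Helper36.KG.G2
import Pool.Agent.Helper68.KG.F
import Pool.Agent.Helper89.KG.S

set_option autoImplicit false

namespace Helper46.KG

universe u

theorem log_two_of_mixed (G : Type u) [Group G] [Finite G] (N : Subgroup G) [N.Normal]
    (hnil : Group.IsNilpotent N) (hcN : commutator G ≤ N) (hyp : Hyp G N 1) :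
    Nat.card G < 2 ^ k G :=
  mixed_aux Pool.Agent.Helper11.KG.stSE1 Pool.Agent.Helper11.KG.stSE2 Helper68.KG.stF
    Pool.Agent.Helper11.KG.stN2 Pool.Agent.Helper11.KG.stT Helper36.KG.stE
    Pool.Agent.Helper11.KG.stG1 Helper36.KG.stG2 Helper68.KG.stH N.index 1 2 le_rfl le_rfl
    (fun G _ _ N _ hcN _ hcl => base2 Helper68.KG.stA Helper68.KG.stA2 G N hcN hcl)
    (Nat.card G) G N rfl hnil hcN rfl hyp

theorem log_three_of_mixed (G : Type u) [Group G] [Finite G] (N : Subgroup G) [N.Normal]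
    (c : ℕ) (hnil : Group.IsNilpotent N) (hcN : commutator G ≤ N)
    (hc : c ≤ 5 ∨ N.index * (N.index + 1) ^ c < 3 ^ (N.index + c)) (hyp : Hyp G N c) :
    Nat.card G < 3 ^ k G := by
  have hm : 1 ≤ N.index := Nat.pos_of_ne_zero (Subgroup.index_ne_zero_of_finite)
  have hnum : N.index * (N.index + 1) ^ c < 3 ^ (N.index + c) := by
    rcases hc with h | h
    · exact cond_five _ _ hm h
    · exact h
  rcases Nat.eq_zero_or_pos c with h0 | h0
  · subst h0
    refine mixed_aux Pool.Agent.Helper11.KG.stSE1 Pool.Agent.Helper11.KG.stSE2 Helper68.KG.stF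
      Pool.Agent.Helper11.KG.stN2 Pool.Agent.Helper11.KG.stT Helper36.KG.stE
      Pool.Agent.Helper11.KG.stG1 Helper36.KG.stG2 Helper68.KG.stH N.index 1 3 le_rfl (by norm_num)
      (fun G _ _ N _ hcN hNm hcl => base3 _ 1 (cond_one _) G N hcN hNm hcl)
      (Nat.card G) G N rfl hnil hcN rfl ?_
    intro P hP hPN hp
    rcases hyp P hP hPN hp with h | h
    · left
      have := P.lowerCentralSeries_antitone (Nat.zero_le 1)
      rw [h] at this
      exact le_bot_iff.mp this
    · exact Or.inr h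
  · exact mixed_aux Pool.Agent.Helper11.KG.stSE1 Pool.Agent.Helper11.KG.stSE2 Helper68.KG.stF
      Pool.Agent.Helper11.KG.stN2 Pool.Agent.Helper11.KG.stT Helper36.KG.stE
      Pool.Agent.Helper11.KG.stG1 Helper36.KG.stG2 Helper68.KG.stH N.index c 3 h0 (by norm_num)
      (fun G _ _ N _ hcN hNm hcl => base3 _ c hnum G N hcN hNm hcl)
      (Nat.card G) G N rfl hnil hcN rfl hyp

theorem log_two_of_supersolvable (G : Type u) [Group G] [Finite G] (hG : IsSupersolvable G) :
    Nat.card G < 2 ^ k G :=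
  log_two_of_mixed G (commutator G) (Pool.Agent.Helper89.KG.stS3 G hG) le_rfl
    (fun P hP _ _ => Or.inr (by haveI := hP; exact Pool.Agent.Helper11.KG.stSE3 G P hG))

theorem logb_lt {b n k : ℕ} (hb : 1 < b) (hn : 0 < n) (h : n < b ^ k) :
    Real.logb b n < k := by
  rw [Real.logb_lt_iff_lt_rpow (by exact_mod_cast hb) (by exact_mod_cast hn), Real.rpow_natCast]
  exact_mod_cast h

end Helper46.KG
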