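import Pool.Agent.Helper46.KG.Stage

set_option autoImplicit false
set_option linter.style.haveILetI false

namespace Helper46.KG

universe u

open scoped commutatorElement

/-- gains: `e` = exponent of the order of the Sylow subgroup. -/
def gain (u c : ℕ) : ℕ → ℕ → ℕ
  | _, 0 => 0
  | e, a + 1 => gain u c (e - 1) a + u + (if Even e then c else 0)

theorem gain_ge (u c : ℕ) : ∀ (a e : ℕ), a ≤ e → a * u + (a / 2) * c ≤ gain u c e a := by
  intro a
  induction a using Nat.strong_induction_on with
  | _ a ih =>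
    intro e hae
    match a, ih, hae with
    | 0, _, _ => simp [gain]
    | 1, _, _ => simp only [gain]; simp
    | (a + 2), ih, hae =>
      have h := ih a (by omega) (e - 2) (by omega)
      have h2 : (a + 2) / 2 = a / 2 + 1 := by omega
      rw [h2]
      simp only [gain]
      have h3 : e - 1 - 1 = e - 2 := by omega
      rw [h3]
      have h4 : c ≤ (if Even (e - 1) then c else 0) + (if Even e then c else 0) := by
        by_cases he : Even e
        · simp [he]
        · have : Even (e - 1) := by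
            rw [Nat.even_iff] at *
            omega
          simp [this]
      have h5 : (a + 2) * u + (a / 2 + 1) * c = (a * u + a / 2 * c) + u + u + c := by ring
      rw [h5]
      omega

theorem card_map_mk {G : Type u} [Group G] [Finite G] (Z P : Subgroup G) [Z.Normal] (hZP : Z ≤ P) :
    Nat.card (P.map (QuotientGroup.mk' Z)) * Nat.card Z = Nat.card P := by
  have h1 := (P.map (QuotientGroup.mk' Z)).card_mul_index
  have h2 := P.card_mul_index
  have h3 := Z.card_mul_index
  have h4 : (P.map (QuotientGroup.mk' Z)).index = P.index := by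
    rw [Subgroup.index_map_eq P (QuotientGroup.mk'_surjective Z) (by simpa using hZP)]
  rw [h4] at h1
  have h5 : Nat.card (G ⧸ Z) = Z.index := rfl
  rw [h5] at h1
  have h6 : 0 < P.index := Nat.pos_of_ne_zero (Subgroup.index_ne_zero_of_finite)
  apply Nat.eq_of_mul_eq_mul_right h6
  calc Nat.card (P.map (QuotientGroup.mk' Z)) * Nat.card Z * P.index
      = (Nat.card (P.map (QuotientGroup.mk' Z)) * P.index) * Nat.card Z := by ring
    _ = Nat.card P * P.index := by rw [h1, h2, ← h3]; ring

theorem comm_map {G : Type u} [Group G] (Z P : Subgroup G) [Z.Normal] (hcP : commutator G ≤ P) :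
    commutator (G ⧸ Z) ≤ P.map (QuotientGroup.mk' Z) := by
  have h : (commutator G).map (QuotientGroup.mk' Z) = commutator (G ⧸ Z) := by
    rw [_root_.commutator_def, Subgroup.map_commutator, _root_.commutator_def]
    have : (⊤ : Subgroup G).map (QuotientGroup.mk' Z) = ⊤ :=
      Subgroup.map_top_of_surjective _ (QuotientGroup.mk'_surjective Z)
    rw [this]
  rw [← h]
  exact Subgroup.map_mono hcP

theorem stage (hE : StE.{u}) (hG1 : StG1.{u}) (hG2 : StG2.{u})
    {G : Type u} [Group G] [Finite G] {p : ℕ} (hp : p.Prime) (Q Z : Subgroup G) [Z.Normal]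
    (hQ : IsPGroup p Q) (hQi : ¬ p ∣ Q.index) (hab : commutator G ≤ Q) (hZ : Nat.card Z = p)
    (hZQ : Z ≤ Q) (e : ℕ) (he : Nat.card Q = p ^ e) (m u c : ℕ) (hm : Q.index = m)
    (hu : ∀ b, m ≤ (p - 1) * b → u ≤ b) (hc : ∀ b, (p - 1) ^ 2 ≤ m * b → c ≤ b) :
    k (G ⧸ Z) + u + (if Even e then c else 0) ≤ k G := by
  obtain ⟨B, hB1, hB2, hB3⟩ := hG1 G p Q Z hp hQ hQi hab hZ
  rw [hm] at hB1
  have hub := hu _ hB1
  by_cases hev : Even e
  · simp only [hev, if_true]
    obtain ⟨r, hr⟩ := hev
    have hcent := central_of_card hp Q Z hQ hZ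
    have hZ' : Nat.card (Z.subgroupOf Q) = p := by
      rw [← hZ]
      exact Nat.card_congr (Subgroup.subgroupOfEquivOfLe hZQ).toEquiv
    obtain ⟨x, hxZ, hx⟩ := hE Q p r (Z.subgroupOf Q) hp (by
      intro z hz
      rw [Subgroup.mem_center_iff]
      intro y
      ext
      exact hcent z.1 (Subgroup.mem_subgroupOf.mp hz) y.1 y.2) hZ' (by rw [he, hr]; ring_nf)
    have hxZ' : (x : G) ∉ Z := fun h => hxZ (Subgroup.mem_subgroupOf.mpr h)
    obtain ⟨T, hT1, hT2⟩ := hG2 G p Q Z hp hQ hQi hab hZ x x.2 hxZ' (by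
      intro y hy hxy
      have := hx ⟨y, hy⟩ (by
        rw [Subgroup.mem_subgroupOf]
        exact hxy)
      exact congrArg Subtype.val this)
    rw [hm] at hT2
    have hcb := hc _ hT2
    have := k_ge Z B T hB2 (by
      intro c hcB hcT
      obtain ⟨t, htQ, htZ, rfl⟩ := hT1 c hcT
      exact htZ (hB3 t htQ hcB))
    omega
  · simp only [hev, if_false]
    have := k_ge Z B ∅ hB2 (by simp)
    simp only [Set.mem_empty_iff_false, Set.ofPred_false, Set.ncard_empty] at this
    omega

theorem block_aux (hS1 : StS1.{u}) (hS2 : StS2.{u}) (hE : StE.{u}) (hG1 : StG1.{u})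
    (hG2 : StG2.{u}) {p : ℕ} (hp : p.Prime) (m u c : ℕ)
    (hu : ∀ b, m ≤ (p - 1) * b → u ≤ b) (hc : ∀ b, (p - 1) ^ 2 ≤ m * b → c ≤ b) :
    ∀ (a e : ℕ) (G : Type u) [Group G] [Finite G] (P Q : Subgroup G) [P.Normal],
      IsSupersolvable G → commutator G ≤ P → P ≤ Q → Nat.card P = p ^ a → Nat.card Q = p ^ e →
      ¬ p ∣ Q.index → Q.index = m → P.index + gain u c e a ≤ k G := by
  intro a
  induction a with
  | zero =>
    intro e G _ _ P Q _ hss hcP hPQ hPc hQc hpi hm
    have hP : P = ⊥ := by
      rw [pow_zero] at hPc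
      exact Subgroup.card_eq_one.mp hPc
    subst hP
    rw [le_bot_iff] at hcP
    simp only [gain, add_zero, Subgroup.index_bot]
    -- `G` is commutative
    have hcomm : ∀ x y : G, x * y = y * x := by
      intro x y
      have : ⁅x, y⁆ ∈ commutator G := Subgroup.commutator_mem_commutator trivial trivial
      rw [hcP, Subgroup.mem_bot, commutatorElement_eq_one_iff_mul_comm] at this
      exact this
    unfold k
    haveI : Finite (ConjClasses G) := Quotient.finite _
    refine Nat.card_le_card_of_injective (ConjClasses.mk : G → ConjClasses G) ?_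
    intro x y hxy
    rw [ConjClasses.mk_eq_mk_iff_isConj, isConj_iff] at hxy
    obtain ⟨g, hg⟩ := hxy
    rw [← hg, hcomm g x]
    group
  | succ a ih =>
    intro e G _ _ P Q _ hss hcP hPQ hPc hQc hpi hm
    haveI := Fact.mk hp
    have hPne : P ≠ ⊥ := by
      rintro rfl
      rw [Subgroup.card_bot, pow_succ] at hPc
      have : p ∣ 1 := ⟨p ^ a, by rw [hPc]; ring⟩
      exact hp.one_lt.ne' (Nat.dvd_one.mp this)
    obtain ⟨Z, hZP, hZn, hZp⟩ := hS2 G P hss hPne
    haveI := hZn
    have hZ : Nat.card Z = p := by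
      have h1 : Nat.card Z ∣ p ^ (a + 1) := by
        rw [← hPc]; exact Subgroup.card_dvd_of_le hZP
      have h2 := (Nat.prime_dvd_prime_iff_eq hZp hp).mp (hZp.dvd_of_dvd_pow h1)
      exact h2
    have hZQ : Z ≤ Q := hZP.trans hPQ
    have hQp : IsPGroup p Q := IsPGroup.of_card hQc
    have hst := stage hE hG1 hG2 hp Q Z hQp hpi (hcP.trans hPQ) hZ hZQ e hQc m u c hm hu hc
    have hcardP := card_map_mk Z P hZP
    have hcardQ := card_map_mk Z Q hZQ
    rw [hZ, hPc, pow_succ] at hcardP
    have hcP' : Nat.card (P.map (QuotientGroup.mk' Z)) = p ^ a :=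
      Nat.eq_of_mul_eq_mul_right hp.pos hcardP
    have he1 : 1 ≤ e := by
      by_contra h
      have : e = 0 := by omega
      subst this
      have h1 : Nat.card Z ≤ Nat.card Q := Nat.card_le_card_of_injective _
        (Subgroup.inclusion_injective hZQ)
      rw [hZ, hQc, pow_zero] at h1
      exact absurd hp.one_lt (by omega)
    obtain ⟨e', rfl⟩ : ∃ e', e = e' + 1 := ⟨e - 1, by omega⟩
    rw [hZ, hQc, pow_succ] at hcardQ
    have hcQ' : Nat.card (Q.map (QuotientGroup.mk' Z)) = p ^ e' :=
      Nat.eq_of_mul_eq_mul_right hp.pos hcardQ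
    have hiP : (P.map (QuotientGroup.mk' Z)).index = P.index :=
      Subgroup.index_map_eq P (QuotientGroup.mk'_surjective Z) (by simpa using hZP)
    have hiQ : (Q.map (QuotientGroup.mk' Z)).index = Q.index :=
      Subgroup.index_map_eq Q (QuotientGroup.mk'_surjective Z) (by simpa using hZQ)
    haveI : (P.map (QuotientGroup.mk' Z)).Normal :=
      Subgroup.Normal.map inferInstance _ (QuotientGroup.mk'_surjective Z)
    have hcomm : commutator (G ⧸ Z) ≤ P.map (QuotientGroup.mk' Z) := comm_map Z P hcP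
    have := ih e' (G ⧸ Z) (P.map (QuotientGroup.mk' Z)) (Q.map (QuotientGroup.mk' Z))
      (hS1 G Z hss) hcomm (Subgroup.map_mono hPQ) hcP' hcQ' (by rw [hiQ]; exact hpi)
      (by rw [hiQ]; exact hm)
    rw [hiP] at this
    simp only [gain, Nat.add_sub_cancel]
    omega

/-- The contribution of one prime. -/
theorem block (hS1 : StS1.{u}) (hS2 : StS2.{u}) (hE : StE.{u}) (hG1 : StG1.{u})
    (hG2 : StG2.{u}) (hH : StH) {p : ℕ} (hp : p.Prime) (a : ℕ) (ha : 2 ≤ a)
    (G : Type u) [Group G] [Finite G] (P : Subgroup G) [P.Normal]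
    (hss : IsSupersolvable G) (hcP : commutator G ≤ P) (hPc : Nat.card P = p ^ a) :
    p ^ a * 2 ^ P.index ≤ 2 ^ k G := by
  haveI := Fact.mk hp
  -- the Sylow subgroup
  have hPp : IsPGroup p P := IsPGroup.of_card hPc
  obtain ⟨Q, hPQ⟩ := hPp.exists_le_sylow
  have hQi : ¬ p ∣ (Q : Subgroup G).index := by
    haveI : (Q : Subgroup G).Normal := Subgroup.Normal.of_commutator_le _ (hcP.trans hPQ)
    exact Q.not_dvd_index
  obtain ⟨e, he⟩ := IsPGroup.iff_card.mp Q.isPGroup'
  set m := (Q : Subgroup G).index with hm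
  have hm0 : 0 < m := Nat.pos_of_ne_zero (Subgroup.index_ne_zero_of_finite)
  have hp1 : 0 < p - 1 := Nat.sub_pos_of_lt hp.one_lt
  set u := (m + (p - 1) - 1) / (p - 1) with hu
  set c := ((p - 1) ^ 2 + m - 1) / m with hc
  have hu1 : ∀ b, m ≤ (p - 1) * b → u ≤ b := by
    intro b hb
    rw [hu, Nat.div_le_iff_le_mul_add_pred hp1]
    have : (p - 1) * b + (p - 1 - 1) = (p - 1) * b + (p - 1) - 1 := by omega
    omega
  have hc1 : ∀ b, (p - 1) ^ 2 ≤ m * b → c ≤ b := by
    intro b hb
    rw [hc, Nat.div_le_iff_le_mul_add_pred hm0]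
    omega
  have hu2 : m ≤ (p - 1) * u := by
    have h1 := Nat.div_add_mod (m + (p - 1) - 1) (p - 1)
    have h2 := Nat.mod_lt (m + (p - 1) - 1) hp1
    rw [← hu] at h1
    omega
  have hc2 : (p - 1) ^ 2 ≤ m * c := by
    have h1 := Nat.div_add_mod ((p - 1) ^ 2 + m - 1) m
    have h2 := Nat.mod_lt ((p - 1) ^ 2 + m - 1) hm0
    rw [← hc] at h1
    omega
  have hu3 : 1 ≤ u := by
    rcases Nat.eq_zero_or_pos u with h | h
    · rw [h] at hu2; omega
    · exact h
  have hc3 : 1 ≤ c := by
    rcases Nat.eq_zero_or_pos c with h | h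
    · rw [h] at hc2
      have : 0 < (p - 1) ^ 2 := by positivity
      omega
    · exact h
  have huc : p ≤ u * c + 1 := by
    have h1 : (p - 1) * (p - 1) ≤ (p - 1) * (u * c) := by
      calc (p - 1) * (p - 1) = (p - 1) ^ 2 := by ring
        _ ≤ m * c := hc2
        _ ≤ ((p - 1) * u) * c := Nat.mul_le_mul_right _ hu2
        _ = (p - 1) * (u * c) := by ring
    have := Nat.le_of_mul_le_mul_left h1 hp1
    omega
  have hnum := hH p a u c hu3 hc3 huc ha
  have hae : a ≤ e := by
    have h1 : p ^ a ∣ p ^ e := by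
      rw [← hPc, ← he]; exact Subgroup.card_dvd_of_le hPQ
    exact (Nat.pow_dvd_pow_iff_le_right hp.one_lt).mp h1
  have hb := block_aux hS1 hS2 hE hG1 hG2 hp m u c hu1 hc1 a e G P Q hss hcP hPQ hPc he hQi rfl
  have hg := gain_ge u c a e hae
  calc p ^ a * 2 ^ P.index ≤ 2 ^ (a * u + (a / 2) * c) * 2 ^ P.index :=
        Nat.mul_le_mul_right _ hnum
    _ = 2 ^ (P.index + (a * u + (a / 2) * c)) := by rw [← pow_add]; ring_nf
    _ ≤ 2 ^ k G := Nat.pow_le_pow_right (by norm_num) (by omega)

/-- Main theorem, with the packets as hypotheses. -/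
theorem main_aux (hS1 : StS1.{u}) (hS2 : StS2.{u}) (hS3 : StS3.{u}) (hF : StF.{u}) (hA : StA.{u})
    (hA2 : StA2) (hN : StN.{u}) (hE : StE.{u}) (hG1 : StG1.{u}) (hG2 : StG2.{u}) (hH : StH) :
    ∀ (n : ℕ) (G : Type u) [Group G] [Finite G], Nat.card G = n → IsSupersolvable G →
      Nat.card G < 2 ^ k G := by
  intro n
  induction n using Nat.strong_induction_on with
  | _ n ih =>
    intro G _ _ hn hss
    have hnil := hS3 G hss
    by_cases hab : ∀ x ∈ commutator G, ∀ y ∈ commutator G, x * y = y * x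
    · have h1 := hA G (commutator G) le_rfl hab
      have h2 := hA2 (commutator G).index (Nat.card (commutator G)) (k G)
        (Nat.pos_of_ne_zero (Subgroup.index_ne_zero_of_finite)) Nat.card_pos (by
          rw [pow_two] at h1 ⊢; exact h1)
      rwa [Subgroup.card_mul_index] at h2
    · obtain ⟨p, a, P, R, hp, hPn, hRn, hPR, hPRd, ha, hPc, hRc⟩ := hN G (commutator G) hnil hab
      haveI := hPn
      haveI := hRn
      have hPle : P ≤ commutator G := hPR ▸ le_sup_left
      have hRle : R ≤ commutator G := hPR ▸ le_sup_right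
      have hk := hF G P R
      -- `G / P`
      have hcardP : Nat.card G = Nat.card (G ⧸ P) * p ^ a := by
        rw [← hPc]; exact Subgroup.card_eq_card_quotient_mul_card_subgroup P
      have hlt : Nat.card (G ⧸ P) < n := by
        rw [← hn, hcardP]
        have h1 : 0 < Nat.card (G ⧸ P) := Nat.card_pos
        have h2 : 1 < p ^ a := Nat.one_lt_pow (by omega) hp.one_lt
        nlinarith
      have h3 := ih _ hlt (G ⧸ P) rfl (hS1 G P hss)
      -- `G / R`
      haveI : ((commutator G).map (QuotientGroup.mk' R)).Normal :=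
        Subgroup.Normal.map inferInstance _ (QuotientGroup.mk'_surjective R)
      have hcR : Nat.card ((commutator G).map (QuotientGroup.mk' R)) = p ^ a := by
        have h1 : (commutator G).map (QuotientGroup.mk' R) = P.map (QuotientGroup.mk' R) := by
          rw [← hPR, Subgroup.map_sup]
          have : R.map (QuotientGroup.mk' R) = ⊥ := by
            rw [Subgroup.map_eq_bot_iff]; simp
          rw [this, sup_bot_eq]
        rw [h1, ← hPc]
        have h2 : Set.InjOn (QuotientGroup.mk' R) (P : Set G) := by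
          intro x hx y hy hxy
          have h3 : x⁻¹ * y ∈ R := by
            rw [← QuotientGroup.eq]; exact hxy
          have h4 : x⁻¹ * y ∈ P := P.mul_mem (P.inv_mem hx) hy
          have h5 : x⁻¹ * y ∈ P ⊓ R := ⟨h4, h3⟩
          rw [hPRd, Subgroup.mem_bot] at h5
          exact (inv_mul_eq_one.mp h5)
        have h3 := Set.ncard_image_of_injOn h2
        have h4 : (QuotientGroup.mk' R) '' (P : Set G) =
            ((P.map (QuotientGroup.mk' R) : Subgroup (G ⧸ R)) : Set (G ⧸ R)) := by
          rw [Subgroup.coe_map]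
        rw [h4] at h3
        exact h3
      have h4 := block hS1 hS2 hE hG1 hG2 hH hp a ha (G ⧸ R)
        ((commutator G).map (QuotientGroup.mk' R)) (hS1 G R hss)
        (comm_map R (commutator G) le_rfl) hcR
      have hiR : ((commutator G).map (QuotientGroup.mk' R)).index = (commutator G).index :=
        Subgroup.index_map_eq _ (QuotientGroup.mk'_surjective R) (by simpa using hRle)
      rw [hiR] at h4
      -- `k (G / G')`
      have h5 : k (G ⧸ (P ⊔ R)) ≤ (commutator G).index := by
        rw [← hPR]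
        unfold k
        haveI : Finite (ConjClasses (G ⧸ (P ⊔ R))) := Quotient.finite _
        exact Nat.card_le_card_of_surjective (ConjClasses.mk) ConjClasses.mk_surjective
      have h6 : 2 ^ k (G ⧸ P) * 2 ^ k (G ⧸ R) ≤ 2 ^ k G * 2 ^ (commutator G).index := by
        rw [← pow_add, ← pow_add]
        exact Nat.pow_le_pow_right (by norm_num) (by omega)
      have h7 : 0 < 2 ^ (commutator G).index := by positivity
      apply Nat.lt_of_mul_lt_mul_right (a := 2 ^ (commutator G).index)
      calc Nat.card G * 2 ^ (commutator G).index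
          = Nat.card (G ⧸ P) * (p ^ a * 2 ^ (commutator G).index) := by rw [hcardP]; ring
        _ ≤ Nat.card (G ⧸ P) * 2 ^ k (G ⧸ R) := Nat.mul_le_mul_left _ h4
        _ < 2 ^ k (G ⧸ P) * 2 ^ k (G ⧸ R) := by
            apply Nat.mul_lt_mul_of_pos_right h3
            positivity
        _ ≤ _ := h6

end Helper46.KG
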