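import Pool.Agent.Helper46.KG.Defs

/-!
# MP_0f21ab_al (Bertram's question): nilpotent-by-abelian groups

Further statements (as `Prop`s) of independent packets.
-/

set_option autoImplicit false

namespace Helper46.KG

universe u

open scoped commutatorElement

/-- `P` is supersolvably embedded in `G`: there is a finite chain `⊥ = H 0, H 1, …, H n = P` of
normal subgroups of `G` such that `H (i+1)` is generated by `H i` and one element. -/
def SE (G : Type u) [Group G] (P : Subgroup G) : Prop :=
  ∃ (n : ℕ) (H : ℕ → Subgroup G), H 0 = ⊥ ∧ H n = P ∧ (∀ i, (H i).Normal) ∧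
    ∀ i, i < n → ∃ g : G, H (i + 1) = H i ⊔ Subgroup.zpowers g

/-! ### Packet SE -/

/-- SE1: images in quotients. -/
def StSE1 : Prop := ∀ (G : Type u) [Group G] (N P : Subgroup G) [N.Normal],
  SE G P → SE (G ⧸ N) (P.map (QuotientGroup.mk' N))

/-- SE2: a nontrivial supersolvably embedded subgroup of a finite group `G` contains a normal
subgroup of `G` of prime order. -/
def StSE2 : Prop := ∀ (G : Type u) [Group G] [Finite G] (P : Subgroup G),
  SE G P → P ≠ ⊥ → ∃ Z : Subgroup G, Z ≤ P ∧ Z.Normal ∧ (Nat.card Z).Prime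

/-- SE3: normal subgroups of supersolvable groups are supersolvably embedded. -/
def StSE3 : Prop := ∀ (G : Type u) [Group G] (P : Subgroup G) [P.Normal],
  IsSupersolvable G → SE G P

/-! ### Packet N2 -/

/-- N2: a finite nilpotent normal subgroup `N` of class `> c ≥ 1` splits as `P ⊔ R` with
`P, R` normal in `G`, `P` a `p`-group of class `> c` and of order `p^a`, `a ≥ 2`, and `R` of order
prime to `p`. -/
def StN2 : Prop := ∀ (G : Type u) [Group G] [Finite G] (N : Subgroup G) [N.Normal] (c : ℕ),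
  1 ≤ c → Group.IsNilpotent N → N.lowerCentralSeries c ≠ ⊥ →
  ∃ (p a : ℕ) (P R : Subgroup G), p.Prime ∧ P.Normal ∧ R.Normal ∧ P ⊔ R = N ∧ P ⊓ R = ⊥ ∧
    2 ≤ a ∧ Nat.card P = p ^ a ∧ (Nat.card R).Coprime p ∧ P.lowerCentralSeries c ≠ ⊥

/-! ### Packet T -/

/-- The hypothesis of the theorem: every normal `p`-subgroup of `G` inside `N` has class `≤ c` or
is supersolvably embedded. -/
def Hyp (G : Type u) [Group G] (N : Subgroup G) (c : ℕ) : Prop :=
  ∀ P : Subgroup G, P.Normal → P ≤ N → (∃ p : ℕ, p.Prime ∧ IsPGroup p P) →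
    P.lowerCentralSeries c = ⊥ ∨ SE G P

/-- T: the hypothesis passes to the quotient by a direct factor. -/
def StT : Prop := ∀ (G : Type u) [Group G] (N P R : Subgroup G) [P.Normal] [R.Normal] (c : ℕ),
  P ⊔ R = N → P ⊓ R = ⊥ → Hyp G N c → Hyp (G ⧸ P) (N.map (QuotientGroup.mk' P)) c

end Helper46.KG
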