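import Pool.Agent.Helper46.KG.ClassStage
import Pool.Agent.Helper46.KG.Block
import Pool.Agent.Helper46.KG.Defs2

set_option autoImplicit false
set_option linter.style.haveILetI false

namespace Helper46.KG

universe u

open scoped commutatorElement

theorem k_congr {G H : Type u} [Group G] [Group H] (e : G ≃* H) : k G = k H := by
  unfold k
  refine Nat.card_congr (Equiv.ofBijective (ConjClasses.map e.toMonoidHom) ⟨?_, ?_⟩)
  · intro a b hab
    obtain ⟨x, rfl⟩ := ConjClasses.exists_rep a
    obtain ⟨y, rfl⟩ := ConjClasses.exists_rep b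
    change ConjClasses.mk (e x) = ConjClasses.mk (e y) at hab
    rw [ConjClasses.mk_eq_mk_iff_isConj, isConj_iff] at hab ⊢
    obtain ⟨c, hc⟩ := hab
    refine ⟨e.symm c, ?_⟩
    apply e.injective
    simpa using hc
  · exact ConjClasses.map_surjective e.surjective

theorem lcs_normal {G : Type u} [Group G] (N : Subgroup G) [N.Normal] (n : ℕ) :
    (N.lowerCentralSeries n).Normal := by
  induction n with
  | zero => simpa using (inferInstance : N.Normal)
  | succ n ih => rw [Subgroup.lowerCentralSeries_succ]; exact Subgroup.commutator_normal _ _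

theorem stage_num' (m g z : ℕ) (hm : 1 ≤ m) (hz : z ≤ m * g + 1) :
    3 * z ≤ max 3 (m + 1) * 3 ^ g := by
  rcases Nat.lt_or_ge m 2 with h | h
  · have : m = 1 := by omega
    subst this
    have h1 : g + 1 ≤ 3 ^ g := by
      have := Nat.lt_pow_self (n := g) (a := 3) (by norm_num)
      omega
    calc 3 * z ≤ 3 * (g + 1) := by omega
      _ ≤ max 3 (1 + 1) * 3 ^ g := Nat.mul_le_mul (by norm_num) h1
  · exact (stage_num m g z h hz).trans (Nat.mul_le_mul_right _ (le_max_right _ _))

theorem base_aux (m : ℕ) (hm : 1 ≤ m) (c : ℕ) : ∀ (G : Type u) [Group G] [Finite G]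
    (N : Subgroup G) [N.Normal], N.index = m → N.lowerCentralSeries c = ⊥ →
    Nat.card N * 3 ^ c * 3 ^ (k (G ⧸ N)) ≤ (max 3 (m + 1)) ^ c * 3 ^ (k G) := by
  induction c with
  | zero =>
    intro G _ _ N _ hNm hc
    rw [Subgroup.lowerCentralSeries_zero] at hc
    subst hc
    rw [k_congr (QuotientGroup.quotientBot (G := G))]
    simp
  | succ c ih =>
    intro G _ _ N _ hNm hc
    haveI := lcs_normal N c
    set Z := N.lowerCentralSeries c with hZ
    have hZN : Z ≤ N := by
      have := N.lowerCentralSeries_antitone (Nat.zero_le c)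
      simpa using this
    have hcen : ∀ z ∈ Z, ∀ x ∈ N, x * z = z * x := by
      rw [Subgroup.lowerCentralSeries_succ, Subgroup.commutator_eq_bot_iff_le_centralizer] at hc
      intro z hz x hx
      exact (Subgroup.mem_centralizer_iff.mp (hc hz)) x hx
    obtain ⟨g, hg1, hg2⟩ := stage_central N Z hcen
    rw [hNm] at hg1
    have hnum := stage_num' m g _ hm hg1
    haveI : (N.map (QuotientGroup.mk' Z)).Normal :=
      Subgroup.Normal.map inferInstance _ (QuotientGroup.mk'_surjective Z)
    have hidx : (N.map (QuotientGroup.mk' Z)).index = m := by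
      rw [Subgroup.index_map_eq N (QuotientGroup.mk'_surjective Z) (by simpa using hZN), hNm]
    have hlcs : (N.map (QuotientGroup.mk' Z)).lowerCentralSeries c = ⊥ := by
      rw [← Subgroup.map_lowerCentralSeries, ← hZ, Subgroup.map_eq_bot_iff]
      simp
    have hih := ih (G ⧸ Z) (N.map (QuotientGroup.mk' Z)) hidx hlcs
    rw [k_congr (QuotientGroup.quotientQuotientEquivQuotient Z N hZN)] at hih
    have hcard := card_map_mk Z N hZN
    calc Nat.card N * 3 ^ (c + 1) * 3 ^ (k (G ⧸ N))
        = (Nat.card (N.map (QuotientGroup.mk' Z)) * 3 ^ c * 3 ^ (k (G ⧸ N))) *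
          (3 * Nat.card Z) := by rw [← hcard]; ring
      _ ≤ ((max 3 (m + 1)) ^ c * 3 ^ (k (G ⧸ Z))) * (max 3 (m + 1) * 3 ^ g) :=
          Nat.mul_le_mul hih hnum
      _ = (max 3 (m + 1)) ^ (c + 1) * 3 ^ (k (G ⧸ Z) + g) := by rw [pow_add, pow_succ]; ring
      _ ≤ (max 3 (m + 1)) ^ (c + 1) * 3 ^ (k G) :=
          Nat.mul_le_mul_left _ (Nat.pow_le_pow_right (by norm_num) hg2)

/-- Bertram's inequality when `N` is nilpotent of class at most `c`. -/
theorem base {G : Type u} [Group G] [Finite G] (N : Subgroup G) [N.Normal] (c : ℕ)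
    (hcl : N.lowerCentralSeries c = ⊥)
    (hnum : N.index * (N.index + 1) ^ c < 3 ^ (k (G ⧸ N) + c)) :
    Nat.card G < 3 ^ k G := by
  have hm : 1 ≤ N.index := Nat.pos_of_ne_zero (Subgroup.index_ne_zero_of_finite)
  have h1 := base_aux N.index hm c G N rfl hcl
  have h2 : N.index * (max 3 (N.index + 1)) ^ c < 3 ^ (k (G ⧸ N) + c) := by
    rcases Nat.lt_or_ge N.index 2 with h | h
    · have h3 : N.index = 1 := by omega
      rw [h3]
      have h4 : 1 ≤ k (G ⧸ N) := by
        unfold k
        haveI : Finite (ConjClasses (G ⧸ N)) := Quotient.finite _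
        haveI : Nonempty (ConjClasses (G ⧸ N)) := ⟨ConjClasses.mk 1⟩
        exact Nat.card_pos
      have h5 : max 3 (1 + 1) = 3 := by norm_num
      rw [h5, one_mul]
      exact Nat.pow_lt_pow_right (by norm_num) (by omega)
    · rwa [max_eq_right (by omega)]
  have hD : 0 < (max 3 (N.index + 1)) ^ c := by positivity
  apply Nat.lt_of_mul_lt_mul_left (a := (max 3 (N.index + 1)) ^ c)
  rw [← Subgroup.card_mul_index N]
  calc (max 3 (N.index + 1)) ^ c * (Nat.card N * N.index)
      = Nat.card N * (N.index * (max 3 (N.index + 1)) ^ c) := by ring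
    _ < Nat.card N * 3 ^ (k (G ⧸ N) + c) :=
        Nat.mul_lt_mul_of_pos_left h2 Nat.card_pos
    _ = Nat.card N * 3 ^ c * 3 ^ (k (G ⧸ N)) := by rw [pow_add]; ring
    _ ≤ _ := h1

end Helper46.KG
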