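import Pool.Agent.Helper46.KG.Stage

set_option autoImplicit false
set_option linter.style.haveILetI false

namespace Helper46.KG

universe u

open scoped commutatorElement

/-- Classes of elements centralised by `N` have at most `|G : N|` elements; so a normal subgroup
`Z` centralised by `N` contributes at least `(|Z|-1)/|G:N|` classes. -/
theorem stage_central {G : Type u} [Group G] [Finite G] (N Z : Subgroup G) [Z.Normal]
    (hc : ∀ z ∈ Z, ∀ x ∈ N, x * z = z * x) :
    ∃ g, Nat.card Z ≤ N.index * g + 1 ∧ k (G ⧸ Z) + g ≤ k G := by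
  classical
  haveI : Fintype G := Fintype.ofFinite G
  haveI : Finite (ConjClasses G) := Quotient.finite _
  haveI : Fintype (ConjClasses G) := Fintype.ofFinite _
  haveI : Fintype (G ⧸ N) := Fintype.ofFinite _
  set T : Set (ConjClasses (G ⧸ Z)) := {ConjClasses.mk 1} with hT
  have hk := k_ge Z ∅ T (by simp) (by simp)
  rw [Set.ncard_empty, hT, Set.ncard_singleton] at hk
  set A : Set (ConjClasses G) :=
    {C | ConjClasses.map (QuotientGroup.mk' Z) C ∈ ({ConjClasses.mk 1} : Set _)} with hA
  -- `A` is the set of classes in `Z`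
  have hAmem : ∀ x : G, ConjClasses.mk x ∈ A ↔ x ∈ Z := by
    intro x
    rw [hA, Set.mem_ofPred_eq, Set.mem_singleton_iff]
    change ConjClasses.mk (x : G ⧸ Z) = ConjClasses.mk 1 ↔ _
    rw [ConjClasses.mk_eq_mk_iff_isConj, isConj_one_left, QuotientGroup.eq_one_iff]
  refine ⟨A.ncard - 1, ?_, by omega⟩
  have hcls : ∀ x ∈ Z, (Finset.univ.filter (fun y : G => ConjClasses.mk y =
      ConjClasses.mk x)).card ≤ N.index := by
    intro x hx
    let g : G ⧸ N → G := fun q => Quotient.liftOn' q (fun c => c * x * c⁻¹) (by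
      intro a b hab'
      have h1 : a⁻¹ * b ∈ N := by
        rwa [QuotientGroup.leftRel_apply] at hab'
      have h2 := hc _ hx _ h1
      have : b * x * b⁻¹ = a * ((a⁻¹ * b) * x) * (a⁻¹ * b)⁻¹ * a⁻¹ := by group
      change a * x * a⁻¹ = b * x * b⁻¹
      rw [this, h2]
      group)
    have hsub : (Finset.univ.filter (fun y : G => ConjClasses.mk y = ConjClasses.mk x)) ⊆
        Finset.univ.image g := by
      intro y hy
      rw [Finset.mem_filter] at hy
      obtain ⟨c, hc⟩ := isConj_iff.1 (ConjClasses.mk_eq_mk_iff_isConj.1 hy.2.symm)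
      rw [Finset.mem_image]
      exact ⟨(c : G ⧸ N), Finset.mem_univ _, hc⟩
    have h1 := (Finset.card_le_card hsub).trans Finset.card_image_le
    rwa [Finset.card_univ, ← Nat.card_eq_fintype_card] at h1
  let S : Finset G := (Finset.univ.filter (fun x : G => x ∈ Z)).erase 1
  have hS : S.card + 1 = Nat.card Z := by
    have h1 : (Finset.univ.filter (fun x : G => x ∈ Z)).card = Nat.card Z := by
      rw [Nat.card_eq_fintype_card, Fintype.card_subtype]
    rw [← h1]
    exact Finset.card_erase_add_one (by simp [Z.one_mem])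
  have hAf : A.ncard = A.toFinset.card := Set.ncard_eq_toFinset_card' A
  have hone : ConjClasses.mk (1 : G) ∈ A.toFinset := by
    rw [Set.mem_toFinset, hAmem]; exact Z.one_mem
  have hle : S.card ≤ N.index * (A.toFinset.erase (ConjClasses.mk 1)).card := by
    refine Finset.card_le_mul_card_image_of_maps_to (f := ConjClasses.mk) ?_ _ ?_
    · intro x hx
      simp only [S, Finset.mem_erase, Finset.mem_filter, Finset.mem_univ, true_and] at hx
      rw [Finset.mem_erase, Set.mem_toFinset, hAmem]
      refine ⟨?_, hx.2⟩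
      intro h
      rw [ConjClasses.mk_eq_mk_iff_isConj] at h
      exact hx.1 (isConj_one_left.mp h)
    · intro C hC
      rw [Finset.mem_erase, Set.mem_toFinset] at hC
      obtain ⟨x, rfl⟩ := ConjClasses.exists_rep C
      have hxZ := (hAmem x).mp hC.2
      refine le_trans (Finset.card_le_card ?_) (hcls x hxZ)
      intro y hy
      rw [Finset.mem_filter] at hy ⊢
      exact ⟨Finset.mem_univ _, hy.2⟩
  rw [Finset.card_erase_of_mem hone, ← hAf] at hle
  omega

/-- numbers -/
theorem stage_num (m g z : ℕ) (hm : 2 ≤ m) (hz : z ≤ m * g + 1) : 3 * z ≤ (m + 1) * 3 ^ g := by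
  have h : 3 * (m * g + 1) ≤ (m + 1) * 3 ^ g := by
    clear hz
    induction g with
    | zero => simp; omega
    | succ g ih =>
      rcases Nat.eq_zero_or_pos g with h0 | h0
      · subst h0; simp; ring_nf; omega
      · calc 3 * (m * (g + 1) + 1) = 3 * (m * g + 1) + 3 * m := by ring
          _ ≤ 3 * (m * g + 1) + 2 * (3 * (m * g + 1)) := by nlinarith
          _ = 3 * (3 * (m * g + 1)) := by ring
          _ ≤ 3 * ((m + 1) * 3 ^ g) := Nat.mul_le_mul_left _ ih
          _ = (m + 1) * 3 ^ (g + 1) := by ring
  omega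

end Helper46.KG
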