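import Pool.Agent.Helper46.KG.Base

set_option autoImplicit false
set_option linter.style.haveILetI false

namespace Helper46.KG

universe u

open scoped commutatorElement

theorem block_auxSE (hS1 : StSE1.{u}) (hS2 : StSE2.{u}) (hE : StE.{u}) (hG1 : StG1.{u})
    (hG2 : StG2.{u}) {p : ℕ} (hp : p.Prime) (m u c : ℕ)
    (hu : ∀ b, m ≤ (p - 1) * b → u ≤ b) (hc : ∀ b, (p - 1) ^ 2 ≤ m * b → c ≤ b) :
    ∀ (a e : ℕ) (G : Type u) [Group G] [Finite G] (P Q : Subgroup G) [P.Normal],
      SE G P → commutator G ≤ P → P ≤ Q → Nat.card P = p ^ a → Nat.card Q = p ^ e →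
      ¬ p ∣ Q.index → Q.index = m → P.index + gain u c e a ≤ k G := by
  intro a
  induction a with
  | zero =>
    intro e G _ _ P Q _ hss hcP hPQ hPc hQc hpi hm
    have hP : P = ⊥ := by
      rw [pow_zero] at hPc
      exact Subgroup.card_eq_one.mp hPc
    subst hP
    rw [le_bot_iff] at hcP
    simp only [gain, add_zero, Subgroup.index_bot]
    -- `G` is commutative
    have hcomm : ∀ x y : G, x * y = y * x := by
      intro x y
      have : ⁅x, y⁆ ∈ commutator G := Subgroup.commutator_mem_commutator trivial trivial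
      rw [hcP, Subgroup.mem_bot, commutatorElement_eq_one_iff_mul_comm] at this
      exact this
    unfold k
    haveI : Finite (ConjClasses G) := Quotient.finite _
    refine Nat.card_le_card_of_injective (ConjClasses.mk : G → ConjClasses G) ?_
    intro x y hxy
    rw [ConjClasses.mk_eq_mk_iff_isConj, isConj_iff] at hxy
    obtain ⟨g, hg⟩ := hxy
    rw [← hg, hcomm g x]
    group
  | succ a ih =>
    intro e G _ _ P Q _ hss hcP hPQ hPc hQc hpi hm
    haveI := Fact.mk hp
    have hPne : P ≠ ⊥ := by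
      rintro rfl
      rw [Subgroup.card_bot, pow_succ] at hPc
      have : p ∣ 1 := ⟨p ^ a, by rw [hPc]; ring⟩
      exact hp.one_lt.ne' (Nat.dvd_one.mp this)
    obtain ⟨Z, hZP, hZn, hZp⟩ := hS2 G P hss hPne
    haveI := hZn
    have hZ : Nat.card Z = p := by
      have h1 : Nat.card Z ∣ p ^ (a + 1) := by
        rw [← hPc]; exact Subgroup.card_dvd_of_le hZP
      have h2 := (Nat.prime_dvd_prime_iff_eq hZp hp).mp (hZp.dvd_of_dvd_pow h1)
      exact h2
    have hZQ : Z ≤ Q := hZP.trans hPQ
    have hQp : IsPGroup p Q := IsPGroup.of_card hQc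
    have hst := stage hE hG1 hG2 hp Q Z hQp hpi (hcP.trans hPQ) hZ hZQ e hQc m u c hm hu hc
    have hcardP := card_map_mk Z P hZP
    have hcardQ := card_map_mk Z Q hZQ
    rw [hZ, hPc, pow_succ] at hcardP
    have hcP' : Nat.card (P.map (QuotientGroup.mk' Z)) = p ^ a :=
      Nat.eq_of_mul_eq_mul_right hp.pos hcardP
    have he1 : 1 ≤ e := by
      by_contra h
      have : e = 0 := by omega
      subst this
      have h1 : Nat.card Z ≤ Nat.card Q := Nat.card_le_card_of_injective _
        (Subgroup.inclusion_injective hZQ)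
      rw [hZ, hQc, pow_zero] at h1
      exact absurd hp.one_lt (by omega)
    obtain ⟨e', rfl⟩ : ∃ e', e = e' + 1 := ⟨e - 1, by omega⟩
    rw [hZ, hQc, pow_succ] at hcardQ
    have hcQ' : Nat.card (Q.map (QuotientGroup.mk' Z)) = p ^ e' :=
      Nat.eq_of_mul_eq_mul_right hp.pos hcardQ
    have hiP : (P.map (QuotientGroup.mk' Z)).index = P.index :=
      Subgroup.index_map_eq P (QuotientGroup.mk'_surjective Z) (by simpa using hZP)
    have hiQ : (Q.map (QuotientGroup.mk' Z)).index = Q.index :=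
      Subgroup.index_map_eq Q (QuotientGroup.mk'_surjective Z) (by simpa using hZQ)
    haveI : (P.map (QuotientGroup.mk' Z)).Normal :=
      Subgroup.Normal.map inferInstance _ (QuotientGroup.mk'_surjective Z)
    have hcomm : commutator (G ⧸ Z) ≤ P.map (QuotientGroup.mk' Z) := comm_map Z P hcP
    have := ih e' (G ⧸ Z) (P.map (QuotientGroup.mk' Z)) (Q.map (QuotientGroup.mk' Z))
      (hS1 G Z P hss) hcomm (Subgroup.map_mono hPQ) hcP' hcQ' (by rw [hiQ]; exact hpi)
      (by rw [hiQ]; exact hm)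
    rw [hiP] at this
    simp only [gain, Nat.add_sub_cancel]
    omega

/-- The contribution of one prime. -/
theorem blockSE (hS1 : StSE1.{u}) (hS2 : StSE2.{u}) (hE : StE.{u}) (hG1 : StG1.{u})
    (hG2 : StG2.{u}) (hH : StH) {p : ℕ} (hp : p.Prime) (a : ℕ) (ha : 2 ≤ a)
    (G : Type u) [Group G] [Finite G] (P : Subgroup G) [P.Normal]
    (hss : SE G P) (hcP : commutator G ≤ P) (hPc : Nat.card P = p ^ a) :
    p ^ a * 2 ^ P.index ≤ 2 ^ k G := by
  haveI := Fact.mk hp
  -- the Sylow subgroup
  have hPp : IsPGroup p P := IsPGroup.of_card hPc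
  obtain ⟨Q, hPQ⟩ := hPp.exists_le_sylow
  have hQi : ¬ p ∣ (Q : Subgroup G).index := by
    haveI : (Q : Subgroup G).Normal := Subgroup.Normal.of_commutator_le _ (hcP.trans hPQ)
    exact Q.not_dvd_index
  obtain ⟨e, he⟩ := IsPGroup.iff_card.mp Q.isPGroup'
  set m := (Q : Subgroup G).index with hm
  have hm0 : 0 < m := Nat.pos_of_ne_zero (Subgroup.index_ne_zero_of_finite)
  have hp1 : 0 < p - 1 := Nat.sub_pos_of_lt hp.one_lt
  set u := (m + (p - 1) - 1) / (p - 1) with hu
  set c := ((p - 1) ^ 2 + m - 1) / m with hc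
  have hu1 : ∀ b, m ≤ (p - 1) * b → u ≤ b := by
    intro b hb
    rw [hu, Nat.div_le_iff_le_mul_add_pred hp1]
    have : (p - 1) * b + (p - 1 - 1) = (p - 1) * b + (p - 1) - 1 := by omega
    omega
  have hc1 : ∀ b, (p - 1) ^ 2 ≤ m * b → c ≤ b := by
    intro b hb
    rw [hc, Nat.div_le_iff_le_mul_add_pred hm0]
    omega
  have hu2 : m ≤ (p - 1) * u := by
    have h1 := Nat.div_add_mod (m + (p - 1) - 1) (p - 1)
    have h2 := Nat.mod_lt (m + (p - 1) - 1) hp1
    rw [← hu] at h1
    omega
  have hc2 : (p - 1) ^ 2 ≤ m * c := by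
    have h1 := Nat.div_add_mod ((p - 1) ^ 2 + m - 1) m
    have h2 := Nat.mod_lt ((p - 1) ^ 2 + m - 1) hm0
    rw [← hc] at h1
    omega
  have hu3 : 1 ≤ u := by
    rcases Nat.eq_zero_or_pos u with h | h
    · rw [h] at hu2; omega
    · exact h
  have hc3 : 1 ≤ c := by
    rcases Nat.eq_zero_or_pos c with h | h
    · rw [h] at hc2
      have : 0 < (p - 1) ^ 2 := by positivity
      omega
    · exact h
  have huc : p ≤ u * c + 1 := by
    have h1 : (p - 1) * (p - 1) ≤ (p - 1) * (u * c) := by
      calc (p - 1) * (p - 1) = (p - 1) ^ 2 := by ring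
        _ ≤ m * c := hc2
        _ ≤ ((p - 1) * u) * c := Nat.mul_le_mul_right _ hu2
        _ = (p - 1) * (u * c) := by ring
    have := Nat.le_of_mul_le_mul_left h1 hp1
    omega
  have hnum := hH p a u c hu3 hc3 huc ha
  have hae : a ≤ e := by
    have h1 : p ^ a ∣ p ^ e := by
      rw [← hPc, ← he]; exact Subgroup.card_dvd_of_le hPQ
    exact (Nat.pow_dvd_pow_iff_le_right hp.one_lt).mp h1
  have hb := block_auxSE hS1 hS2 hE hG1 hG2 hp m u c hu1 hc1 a e G P Q hss hcP hPQ hPc he hQi rfl
  have hg := gain_ge u c a e hae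
  calc p ^ a * 2 ^ P.index ≤ 2 ^ (a * u + (a / 2) * c) * 2 ^ P.index :=
        Nat.mul_le_mul_right _ hnum
    _ = 2 ^ (P.index + (a * u + (a / 2) * c)) := by rw [← pow_add]; ring_nf
    _ ≤ 2 ^ k G := Nat.pow_le_pow_right (by norm_num) (by omega)


theorem cond_one (m : ℕ) : m * (m + 1) ^ 1 < 3 ^ (m + 1) := by
  induction m with
  | zero => norm_num
  | succ m ih =>
    have h : 2 * (m + 1) ≤ 2 * 3 ^ (m + 1) := by
      have := Nat.lt_pow_self (n := m + 1) (a := 3) (by norm_num)
      omega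
    calc (m + 1) * (m + 1 + 1) ^ 1 = m * (m + 1) ^ 1 + 2 * (m + 1) := by ring
      _ < 3 ^ (m + 1) + 2 * 3 ^ (m + 1) := Nat.add_lt_add_of_lt_of_le ih h
      _ = 3 ^ (m + 1 + 1) := by ring

/-- The mixed theorem, with the packets as hypotheses; `b` is the basis of the logarithm. -/
theorem mixed_aux (hS1 : StSE1.{u}) (hS2 : StSE2.{u}) (hF : StF.{u}) (hN : StN2.{u})
    (hT : StT.{u}) (hE : StE.{u}) (hG1 : StG1.{u}) (hG2 : StG2.{u}) (hH : StH)
    (m c b : ℕ) (hc1 : 1 ≤ c) (hb : 2 ≤ b)
    (hbase : ∀ (G : Type u) [Group G] [Finite G] (N : Subgroup G) [N.Normal],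
      commutator G ≤ N → N.index = m → N.lowerCentralSeries c = ⊥ → Nat.card G < b ^ k G) :
    ∀ (n : ℕ) (G : Type u) [Group G] [Finite G] (N : Subgroup G) [N.Normal], Nat.card G = n →
      Group.IsNilpotent N → commutator G ≤ N → N.index = m → Hyp G N c →
      Nat.card G < b ^ k G := by
  intro n
  induction n using Nat.strong_induction_on with
  | _ n ih =>
    intro G _ _ N _ hn hnil hcN hNm hyp
    by_cases hcl : N.lowerCentralSeries c = ⊥
    · exact hbase G N hcN hNm hcl
    · obtain ⟨p, a, P, R, hp, hPn, hRn, hPR, hPRd, ha, hPc, hRc, hPcl⟩ := hN G N c hc1 hnil hcl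
      haveI := hPn
      haveI := hRn
      have hPle : P ≤ N := hPR ▸ le_sup_left
      have hRle : R ≤ N := hPR ▸ le_sup_right
      haveI := Fact.mk hp
      have hSE : SE G P := by
        rcases hyp P hPn hPle ⟨p, hp, IsPGroup.of_card hPc⟩ with h | h
        · exact absurd h hPcl
        · exact h
      have hk := hF G P R
      have hcardP : Nat.card G = Nat.card (G ⧸ P) * p ^ a := by
        rw [← hPc]; exact Subgroup.card_eq_card_quotient_mul_card_subgroup P
      have hlt : Nat.card (G ⧸ P) < n := by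
        rw [← hn, hcardP]
        have h1 : 0 < Nat.card (G ⧸ P) := Nat.card_pos
        have h2 : 1 < p ^ a := Nat.one_lt_pow (by omega) hp.one_lt
        nlinarith
      haveI : (N.map (QuotientGroup.mk' P)).Normal :=
        Subgroup.Normal.map inferInstance _ (QuotientGroup.mk'_surjective P)
      haveI : (N.map (QuotientGroup.mk' R)).Normal :=
        Subgroup.Normal.map inferInstance _ (QuotientGroup.mk'_surjective R)
      have hnilP : Group.IsNilpotent (N.map (QuotientGroup.mk' P)) := by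
        obtain ⟨d, hd⟩ := N.isNilpotent_iff_lowerCentralSeries.mp hnil
        rw [Subgroup.isNilpotent_iff_lowerCentralSeries]
        refine ⟨d, ?_⟩
        rw [← Subgroup.map_lowerCentralSeries, hd, Subgroup.map_bot]
      have hiP : (N.map (QuotientGroup.mk' P)).index = N.index :=
        Subgroup.index_map_eq _ (QuotientGroup.mk'_surjective P) (by simpa using hPle)
      have hiR : (N.map (QuotientGroup.mk' R)).index = N.index :=
        Subgroup.index_map_eq _ (QuotientGroup.mk'_surjective R) (by simpa using hRle)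
      have h3 := ih _ hlt (G ⧸ P) (N.map (QuotientGroup.mk' P)) rfl hnilP (comm_map P N hcN)
        (by rw [hiP, hNm]) (hT G N P R c hPR hPRd hyp)
      have hmap : N.map (QuotientGroup.mk' R) = P.map (QuotientGroup.mk' R) := by
        rw [← hPR, Subgroup.map_sup]
        have : R.map (QuotientGroup.mk' R) = ⊥ := by
          rw [Subgroup.map_eq_bot_iff]; simp
        rw [this, sup_bot_eq]
      have hcR : Nat.card (N.map (QuotientGroup.mk' R)) = p ^ a := by
        rw [hmap, ← hPc]
        have h2 : Set.InjOn (QuotientGroup.mk' R) (P : Set G) := by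
          intro x hx y hy hxy
          have h3 : x⁻¹ * y ∈ R := by
            rw [← QuotientGroup.eq]; exact hxy
          have h4 : x⁻¹ * y ∈ P := P.mul_mem (P.inv_mem hx) hy
          have h5 : x⁻¹ * y ∈ P ⊓ R := ⟨h4, h3⟩
          rw [hPRd, Subgroup.mem_bot] at h5
          exact (inv_mul_eq_one.mp h5)
        have h3 := Set.InjOn.ncard_image h2
        have h4 : (QuotientGroup.mk' R) '' (P : Set G) =
            ((P.map (QuotientGroup.mk' R) : Subgroup (G ⧸ R)) : Set (G ⧸ R)) := by
          rw [Subgroup.coe_map]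
        rw [h4] at h3
        exact h3
      have h4 := blockSE hS1 hS2 hE hG1 hG2 hH hp a ha (G ⧸ R) (N.map (QuotientGroup.mk' R))
        (by rw [hmap]; exact hS1 G R P hSE) (comm_map R N hcN) hcR
      rw [hiR, hNm] at h4
      have h5 : k (G ⧸ (P ⊔ R)) ≤ m := by
        rw [← hNm, ← hPR]
        unfold k
        haveI : Finite (ConjClasses (G ⧸ (P ⊔ R))) := Quotient.finite _
        exact Nat.card_le_card_of_surjective (ConjClasses.mk) ConjClasses.mk_surjective
      -- from base 2 to base 3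
      have h6 : p ^ a * b ^ m ≤ b ^ k (G ⧸ R) := by
        have hle : m ≤ k (G ⧸ R) := by
          by_contra hlt'
          push Not at hlt'
          have h7 : 2 ^ k (G ⧸ R) < 2 ^ m := Nat.pow_lt_pow_right (by norm_num) hlt'
          have h8 : 2 ^ m ≤ p ^ a * 2 ^ m := Nat.le_mul_of_pos_left _ (pow_pos hp.pos a)
          omega
        obtain ⟨t, ht⟩ := Nat.exists_eq_add_of_le hle
        rw [ht] at h4 ⊢
        rw [pow_add, mul_comm (p ^ a)] at h4
        have h9 : p ^ a ≤ 2 ^ t := Nat.le_of_mul_le_mul_left h4 (by positivity)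
        calc p ^ a * b ^ m ≤ b ^ t * b ^ m :=
              Nat.mul_le_mul_right _ (h9.trans (Nat.pow_le_pow_left hb t))
          _ = b ^ (m + t) := by rw [pow_add]; ring
      have hb0 : 0 < b := by omega
      have h7 : b ^ k (G ⧸ P) * b ^ k (G ⧸ R) ≤ b ^ k G * b ^ m := by
        rw [← pow_add, ← pow_add]
        exact Nat.pow_le_pow_right hb0 (by omega)
      apply Nat.lt_of_mul_lt_mul_right (a := b ^ m)
      calc Nat.card G * b ^ m
          = Nat.card (G ⧸ P) * (p ^ a * b ^ m) := by rw [hcardP]; ring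
        _ ≤ Nat.card (G ⧸ P) * b ^ k (G ⧸ R) := Nat.mul_le_mul_left _ h6
        _ < b ^ k (G ⧸ P) * b ^ k (G ⧸ R) := by
            apply Nat.mul_lt_mul_of_pos_right h3
            positivity
        _ ≤ _ := h7

theorem k_quot_of_comm {G : Type u} [Group G] [Finite G] (N : Subgroup G) [N.Normal]
    (hcN : commutator G ≤ N) : k (G ⧸ N) = N.index := by
  unfold k
  have hcomm : ∀ x y : G ⧸ N, x * y = y * x := by
    intro x y
    obtain ⟨a, rfl⟩ := QuotientGroup.mk_surjective x
    obtain ⟨b, rfl⟩ := QuotientGroup.mk_surjective y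
    rw [← QuotientGroup.mk_mul, ← QuotientGroup.mk_mul, QuotientGroup.eq]
    apply hcN
    have : (a * b)⁻¹ * (b * a) = ⁅b⁻¹, a⁻¹⁆ := by
      rw [commutatorElement_def]; group
    rw [this]
    exact Subgroup.commutator_mem_commutator trivial trivial
  haveI : Finite (ConjClasses (G ⧸ N)) := Quotient.finite _
  apply le_antisymm
  · exact Nat.card_le_card_of_surjective (ConjClasses.mk) ConjClasses.mk_surjective
  · refine Nat.card_le_card_of_injective
      (ConjClasses.mk : G ⧸ N → ConjClasses (G ⧸ N)) ?_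
    intro x y hxy
    rw [ConjClasses.mk_eq_mk_iff_isConj, isConj_iff] at hxy
    obtain ⟨g, hg⟩ := hxy
    rw [← hg, hcomm g x]
    group

theorem base3 (m c : ℕ) (hm : m * (m + 1) ^ c < 3 ^ (m + c)) (G : Type u) [Group G] [Finite G]
    (N : Subgroup G) [N.Normal] (hcN : commutator G ≤ N) (hNm : N.index = m)
    (hcl : N.lowerCentralSeries c = ⊥) : Nat.card G < 3 ^ k G :=
  base N c hcl (by rw [k_quot_of_comm N hcN, hNm]; exact hm)

theorem base2 (hA : StA.{u}) (hA2 : StA2) (G : Type u) [Group G] [Finite G]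
    (N : Subgroup G) [N.Normal] (hcN : commutator G ≤ N)
    (hcl : N.lowerCentralSeries 1 = ⊥) : Nat.card G < 2 ^ k G := by
  have hab : ∀ x ∈ N, ∀ y ∈ N, x * y = y * x := by
    rw [Subgroup.lowerCentralSeries_succ, Subgroup.lowerCentralSeries_zero,
      Subgroup.commutator_eq_bot_iff_le_centralizer] at hcl
    intro x hx y hy
    exact (Subgroup.mem_centralizer_iff.mp (hcl hy)) x hx
  have h1 := hA G N hcN hab
  have h2 := hA2 N.index (Nat.card N) (k G)
    (Nat.pos_of_ne_zero (Subgroup.index_ne_zero_of_finite)) Nat.card_pos h1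
  rwa [Subgroup.card_mul_index] at h2

theorem cond_five (m c : ℕ) (hm : 1 ≤ m) (hc : c ≤ 5) : m * (m + 1) ^ c < 3 ^ (m + c) := by
  have h5 : ∀ m : ℕ, 2 ≤ m → m * (m + 1) ^ 5 < 3 ^ (m + 5) := by
    intro m hm
    rcases Nat.lt_or_ge m 6 with h | h
    · interval_cases m <;> norm_num
    · induction m, h using Nat.le_induction with
      | base => norm_num
      | succ m h ih =>
        have ih' := ih (by omega)
        have h1 : (m + 1) * (m + 1 + 1) ^ 5 ≤ 3 * (m * (m + 1) ^ 5) := by
          obtain ⟨t, rfl⟩ := Nat.exists_eq_add_of_le h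
          ring_nf
          nlinarith [Nat.zero_le t, Nat.zero_le (t ^ 2), Nat.zero_le (t ^ 3), Nat.zero_le (t ^ 4),
            Nat.zero_le (t ^ 5), Nat.zero_le (t ^ 6)]
        calc (m + 1) * (m + 1 + 1) ^ 5 ≤ 3 * (m * (m + 1) ^ 5) := h1
          _ < 3 * 3 ^ (m + 5) := by omega
          _ = 3 ^ (m + 1 + 5) := by ring
  rcases Nat.lt_or_ge m 2 with h | h
  · have : m = 1 := by omega
    subst this
    interval_cases c <;> norm_num
  · obtain ⟨d, hd⟩ := Nat.exists_eq_add_of_le hc
    have h6 := h5 m h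
    have h7 : 3 ^ d ≤ (m + 1) ^ d := Nat.pow_le_pow_left (by omega) d
    have h8 : m * (m + 1) ^ c * 3 ^ d < 3 ^ (m + c) * 3 ^ d := by
      calc m * (m + 1) ^ c * 3 ^ d ≤ m * (m + 1) ^ c * (m + 1) ^ d := Nat.mul_le_mul_left _ h7
        _ = m * (m + 1) ^ 5 := by rw [hd, pow_add]; ring
        _ < 3 ^ (m + 5) := h6
        _ = 3 ^ (m + c) * 3 ^ d := by rw [← pow_add]; congr 1; omega
    exact Nat.lt_of_mul_lt_mul_right h8

end Helper46.KG
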