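import Pool.Agent.Helper46.KG.Defs

set_option autoImplicit false

namespace Helper46.KG

universe u

open scoped commutatorElement

theorem map_mk'_surj {G : Type u} [Group G] (Z : Subgroup G) [Z.Normal] :
    Function.Surjective (ConjClasses.map (QuotientGroup.mk' Z)) := by
  intro c
  obtain ⟨x, rfl⟩ := ConjClasses.exists_rep c
  obtain ⟨g, rfl⟩ := QuotientGroup.mk'_surjective Z x
  exact ⟨ConjClasses.mk g, rfl⟩

theorem k_ge {G : Type u} [Group G] [Finite G] (Z : Subgroup G) [Z.Normal]
    (B T : Set (ConjClasses (G ⧸ Z))) (hB : ∀ c ∈ B, 2 ≤ (fib Z c).ncard)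
    (hd : ∀ c ∈ B, c ∉ T) :
    k (G ⧸ Z) + B.ncard +
      ({C | ConjClasses.map (QuotientGroup.mk' Z) C ∈ T}.ncard - T.ncard) ≤ k G := by
  classical
  haveI : Finite (ConjClasses G) := Quotient.finite _
  haveI : Finite (ConjClasses (G ⧸ Z)) := Quotient.finite _
  haveI := Fintype.ofFinite (ConjClasses G)
  haveI := Fintype.ofFinite (ConjClasses (G ⧸ Z))
  set f := ConjClasses.map (QuotientGroup.mk' Z) with hf
  have hsurj : Function.Surjective f := map_mk'_surj Z
  let n : ConjClasses (G ⧸ Z) → ℕ := fun c => (Finset.univ.filter (fun C => f C = c)).card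
  have hn : ∀ c, (fib Z c).ncard = n c := by
    intro c
    have : fib Z c = ((Finset.univ.filter (fun C => f C = c) : Finset _) : Set (ConjClasses G)) := by
      ext C; simp [fib, hf]
    rw [this, Set.ncard_coe_finset]
  have h1 : ∀ c, 1 ≤ n c := by
    intro c
    obtain ⟨C, hC⟩ := hsurj c
    exact Finset.card_pos.mpr ⟨C, by simp [hC]⟩
  have hkG : k G = ∑ c, n c := by
    unfold k
    rw [Nat.card_eq_fintype_card, ← Finset.card_univ]
    exact Finset.card_eq_sum_card_fiberwise (fun x _ => Finset.mem_univ _)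
  have hkZ : k (G ⧸ Z) = ∑ _c : ConjClasses (G ⧸ Z), 1 := by
    unfold k
    simp [Nat.card_eq_fintype_card]
  have hT : {C | f C ∈ T}.ncard = ∑ c ∈ T.toFinset, n c := by
    have : {C | f C ∈ T} = ((Finset.univ.filter (fun C => f C ∈ T.toFinset) : Finset _) :
        Set (ConjClasses G)) := by
      ext C; simp
    rw [this, Set.ncard_coe_finset]
    rw [Finset.card_eq_sum_card_fiberwise (f := f) (t := T.toFinset)]
    · refine Finset.sum_congr rfl fun c hc => ?_
      congr 1
      ext C
      simp only [Finset.mem_filter, Finset.mem_univ, true_and, and_iff_right_iff_imp]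
      rintro rfl
      exact hc
    · intro C hC
      simpa using hC
  have hTc : T.ncard = ∑ _c ∈ T.toFinset, 1 := by
    rw [Set.ncard_eq_toFinset_card' T]; simp
  have hBc : B.ncard = ∑ _c ∈ B.toFinset, 1 := by
    rw [Set.ncard_eq_toFinset_card' B]; simp
  have hTle : T.ncard ≤ {C | f C ∈ T}.ncard := by
    rw [hT, hTc]; exact Finset.sum_le_sum fun c _ => h1 c
  have hBT : B.toFinset ⊆ T.toFinsetᶜ := by
    intro c hc
    simp only [Finset.mem_compl, Set.mem_toFinset] at hc ⊢
    exact hd c hc
  have hmain : (∑ _c : ConjClasses (G ⧸ Z), 1) + (∑ _c ∈ B.toFinset, 1) + (∑ c ∈ T.toFinset, n c)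
      ≤ (∑ c, n c) + ∑ _c ∈ T.toFinset, 1 := by
    rw [← Finset.sum_add_sum_compl T.toFinset (fun _ => 1),
      ← Finset.sum_add_sum_compl T.toFinset n]
    have h2 : (∑ _c ∈ T.toFinsetᶜ, 1) + (∑ _c ∈ B.toFinset, 1) ≤ ∑ c ∈ T.toFinsetᶜ, n c := by
      have h3 : (∑ _c ∈ B.toFinset, 1) = ∑ c ∈ T.toFinsetᶜ, (if c ∈ B then 1 else 0) := by
        rw [← Finset.sum_filter]
        refine Finset.sum_congr ?_ fun _ _ => rfl
        ext c
        simp only [Set.mem_toFinset, Finset.mem_filter, Finset.mem_compl]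
        constructor
        · intro h; exact ⟨hd c h, h⟩
        · intro h; exact h.2
      rw [h3, ← Finset.sum_add_distrib]
      refine Finset.sum_le_sum fun c _ => ?_
      split_ifs with hc
      · have := hB c hc
        rw [hn c] at this
        omega
      · have := h1 c
        omega
    omega
  rw [hkG, hkZ, hT, hTc, hBc]
  have := hTle
  rw [hT, hTc] at this
  omega

/-- A normal subgroup of prime order `p` of a group is centralised by every `p`-subgroup. -/
theorem central_of_card {G : Type u} [Group G] [Finite G] {p : ℕ} (hp : p.Prime)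
    (Q Z : Subgroup G) [Z.Normal] (hQ : IsPGroup p Q) (hZ : Nat.card Z = p) :
    ∀ z ∈ Z, ∀ y ∈ Q, y * z = z * y := by
  haveI := Fact.mk hp
  -- `Q` acts on `Z` by conjugation
  letI act : MulAction Q Z :=
    { smul := fun q z => ⟨q * z * (q : G)⁻¹, Subgroup.Normal.conj_mem inferInstance z.1 z.2 q⟩
      one_smul := by intro z; ext; show ((1 : Q) : G) * z * ((1 : Q) : G)⁻¹ = z; simp
      mul_smul := by
        intro a b z; ext
        show ((a * b : Q) : G) * z * ((a * b : Q) : G)⁻¹ = a * (b * z * (b : G)⁻¹) * (a : G)⁻¹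
        push_cast; group }
  have hsm : ∀ (q : Q) (z : Z), ((q • z : Z) : G) = q * z * (q : G)⁻¹ := fun q z => rfl
  haveI : Finite Z := inferInstance
  have hmod := hQ.card_modEq_card_fixedPoints Z
  rw [hZ] at hmod
  have h1 : (1 : Z) ∈ MulAction.fixedPoints Q Z := by
    intro q; ext; rw [hsm]; simp
  have hpos : 0 < Nat.card (MulAction.fixedPoints Q Z) :=
    Nat.card_pos_iff.mpr ⟨⟨⟨1, h1⟩⟩, inferInstance⟩
  have hle : Nat.card (MulAction.fixedPoints Q Z) ≤ p := by
    rw [← hZ]; exact Nat.card_le_card_of_injective _ Subtype.val_injective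
  have hdvd : p ∣ Nat.card (MulAction.fixedPoints Q Z) := by
    have := hmod.symm
    exact (Nat.modEq_zero_iff_dvd.mp (this.trans (by simp [Nat.ModEq])))
  have heq : Nat.card (MulAction.fixedPoints Q Z) = p := le_antisymm hle (Nat.le_of_dvd hpos hdvd)
  have huniv : MulAction.fixedPoints Q Z = Set.univ := by
    have h2 : (MulAction.fixedPoints Q Z).ncard = Nat.card Z := by
      rw [hZ]; exact heq
    rw [← Set.ncard_univ] at h2
    exact Set.eq_of_subset_of_ncard_le (Set.subset_univ _) (le_of_eq h2.symm) (Set.toFinite _)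
  intro z hz y hy
  have h3 : (⟨z, hz⟩ : Z) ∈ MulAction.fixedPoints Q Z := by rw [huniv]; trivial
  have h4 := congrArg Subtype.val (h3 ⟨y, hy⟩)
  rw [hsm] at h4
  simp only at h4
  calc y * z = (y * z * y⁻¹) * y := by group
    _ = z * y := by rw [h4]

end Helper46.KG
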